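import Pool.Agent.Helper36.QA.Nat
import Pool.Agent.Helper36.QA.Right

set_option autoImplicit false

universe u

open SimpleGraph

/-- Q1 in full: there are absolute constants `c, C > 0` such that every Hamiltonian graph with
minimum degree at least three on `n` vertices, `n` large, has at least `c * sqrt n` cycle lengths
in a single interval of length `C * sqrt n`. -/
theorem Pool.Agent.Results.MP_c54260_co.ClusteredAll.result :
    ∃ c C : ℝ, 0 < c ∧ 0 < C ∧ ∃ n₀ : ℕ, ∀ (V : Type u) [Fintype V] [DecidableEq V]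
      (G : SimpleGraph V) [DecidableRel G.Adj], n₀ ≤ Fintype.card V →
      G.IsHamiltonian → 3 ≤ G.minDegree →
      ∃ (x : ℝ) (S : Finset ℕ),
        (∀ l ∈ S, x ≤ l ∧ (l : ℝ) ≤ x + C * √(Fintype.card V : ℝ) ∧
          ∃ (v : V) (w : G.Walk v v), w.IsCycle ∧ w.length = l) ∧
        c * √(Fintype.card V : ℝ) ≤ S.card := by
  obtain ⟨c, C, hc, hC, n₀, H⟩ := Pool.Agent.Helper36.QA.all_real
  refine ⟨c, C, hc, hC, max n₀ 3, ?_⟩
  intro V _ _ G _ hn hG h3
  have hn0 : n₀ ≤ Fintype.card V := le_trans (le_max_left _ _) hn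
  have hn3 : 3 ≤ Fintype.card V := le_trans (le_max_right _ _) hn
  obtain ⟨G', K, hG', hcyc, hK, hKc⟩ := Pool.Agent.Helper36.QA.exists_right G hG h3 hn3
  obtain ⟨x, S, hS, hSc⟩ := H _ G' K hn0 hG' hK hKc
  refine ⟨x, S, fun l hl => ?_, hSc⟩
  obtain ⟨h1, h2, h3⟩ := hS l hl
  exact ⟨h1, h2, hcyc l h3⟩
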