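import Pool.Agent.Helper36.Hub.Step
import Pool.Agent.Helper36.Hub.Hubs
import Pool.Agent.Helper36.CL.Final

set_option autoImplicit false

universe u

open SimpleGraph

/-- Q2 in full: there is an absolute constant `c > 0` such that every Hamiltonian graph with
minimum degree at least three on `n` vertices, `n` large, has at least `c * sqrt n` cycle lengths
any two of which differ by at least `sqrt n`. -/
theorem Pool.Agent.Results.MP_c54260_co.SpreadLengths.result :
    ∃ c : ℝ, 0 < c ∧ ∃ n₀ : ℕ, ∀ (V : Type u) [Fintype V] [DecidableEq V]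
      (G : SimpleGraph V) [DecidableRel G.Adj], n₀ ≤ Fintype.card V →
      G.IsHamiltonian → 3 ≤ G.minDegree →
      ∃ S : Finset ℕ,
        (∀ l ∈ S, ∃ (v : V) (w : G.Walk v v), w.IsCycle ∧ w.length = l) ∧
        (∀ k ∈ S, ∀ l ∈ S, k < l → √(Fintype.card V : ℝ) ≤ (l : ℝ) - k) ∧
        c * √(Fintype.card V : ℝ) ≤ S.card := by
  obtain ⟨c, hc, n₀, H⟩ := Pool.Agent.Helper36.CL.q2_real 2000000 (by norm_num)
  refine ⟨min c (1 / 10000), lt_min hc (by norm_num), max n₀ 1000000000, ?_⟩
  intro V _ _ G _ hn hG h3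
  have hn0 : n₀ ≤ Fintype.card V := le_trans (le_max_left _ _) hn
  have hn1 : 1000000000 ≤ Fintype.card V := le_trans (le_max_right _ _) hn
  have hn3 : 3 ≤ Fintype.card V := by omega
  obtain ⟨G', ψ, hG', hinj, hsurj, hadj, hcyc⟩ :=
    Pool.Agent.Helper36.CL.exists_nat_model G hG hn3
  have hsq : (0 : ℝ) ≤ √(Fintype.card V : ℝ) := Real.sqrt_nonneg _
  rcases Pool.Agent.Helper36.Hub.exists_hubs G h3 2000000 G' ψ hG' hinj hsurj hadj with
    ⟨K, hK, hKc⟩ | ⟨S, h, hh, hSc⟩
  · obtain ⟨S, hS1, hS2, hSc⟩ := H _ G' K hn0 hG' hK hKc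
    refine ⟨S, fun l hl => hcyc l (hS1 l hl), fun k hk l hl hkl => ?_, ?_⟩
    · have := hS2 k hk l hl hkl
      linarith
    · refine le_trans ?_ hSc
      exact mul_le_mul_of_nonneg_right (min_le_left _ _) hsq
  · set n := Fintype.card V with hndef
    set q := Nat.sqrt n with hq
    have hq1 : q * q ≤ n := Nat.sqrt_le n
    have hq2 : n < (q + 1) * (q + 1) := Nat.lt_succ_sqrt n
    have hqD : 30000 ≤ q := by
      rw [hq, Nat.le_sqrt]
      omega
    have hGn : Pool.Agent.Helper36.CL.HasCyc G n := by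
      obtain ⟨a, p, hp⟩ := hG (by omega)
      exact ⟨a, p, hp.isCycle, hp.length_eq⟩
    have hmax : ∀ k, Pool.Agent.Helper36.CL.HasCyc G k → k ≤ n := by
      intro k hk
      obtain ⟨u, hu⟩ := Pool.Agent.Helper36.Hub.exists_cy hk
      have h1 : ((Finset.range k).image u).card = k := by
        rw [Finset.card_image_of_injOn, Finset.card_range]
        intro i hi j hj hij
        exact hu.inj i (Finset.mem_range.1 hi) j (Finset.mem_range.1 hj) hij
      rw [← h1]
      exact Finset.card_le_univ _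
    obtain ⟨L, hL1, hL2, hL3⟩ := Pool.Agent.Helper36.Hub.hub_lengths S h hh n q hq1 hq2
      (by omega) (by omega) hGn hmax
    have hqr2 : √(n : ℝ) ≤ 2 * q := by
      rw [Real.sqrt_le_left (by positivity)]
      have h1 : (n : ℝ) ≤ ((q + 1) * (q + 1) : ℕ) := by exact_mod_cast hq2.le
      push_cast at h1
      have h2 : (1 : ℝ) ≤ q := by exact_mod_cast (by omega : 1 ≤ q)
      nlinarith
    refine ⟨L, hL1, fun x hx y hy hxy => ?_, ?_⟩
    · have h1 := hL2 x hx y hy hxy
      have h2 : ((x + 2 * q : ℕ) : ℝ) ≤ y := by exact_mod_cast h1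
      push_cast at h2
      linarith
    · have h1 : q ≤ 3000 * L.card := by omega
      have h2 : (q : ℝ) ≤ ((3000 * L.card : ℕ) : ℝ) := by exact_mod_cast h1
      push_cast at h2
      have h3 : min c (1 / 10000) * √(n : ℝ) ≤ 1 / 10000 * √(n : ℝ) :=
        mul_le_mul_of_nonneg_right (min_le_right _ _) hsq
      linarith
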